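import Pool.Agent.H22.AN.TB3
import Pool.Agent.H80.AN.TargetsA

/-! Board allh_modules (MP_2697e3_an), part B, row FRA: planes with nearly optimal second moment in a
pinched cell. -/

set_option autoImplicit false

namespace Pool.Agent.H16.AN

open MeasureTheory Metric Set Filter Topology Pool.Agent.H87.SN Pool.Agent.H87.SH Pool.Agent.H87.AX
open Pool.Agent.H22.AN
open scoped ContDiff RealInnerProductSpace ENNReal

theorem rho_cont {d : ℕ} : Continuous (fun x : V d => rho x) := by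
  unfold rho
  fun_prop

theorem rho_nonneg {d : ℕ} (x : V d) : 0 ≤ rho x := Real.sqrt_nonneg _

theorem norm_sq_eq {d : ℕ} (x : V d) : ‖x‖ ^ 2 = x 0 ^ 2 + (x 1 ^ 2 + ‖zp x‖ ^ 2) := by
  rw [EuclideanSpace.real_norm_sq_eq, EuclideanSpace.real_norm_sq_eq, Fin.sum_univ_succ,
    Fin.sum_univ_succ]
  rfl

theorem rho_sq {d : ℕ} (x : V d) : rho x ^ 2 = x 0 ^ 2 + x 1 ^ 2 := by
  unfold rho
  rw [Real.sq_sqrt (by positivity)]

theorem rho_le {d : ℕ} (x : V d) : rho x ≤ ‖x‖ := by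
  have h1 := norm_sq_eq x
  have h2 := rho_sq x
  refine le_of_sq_le_sq ?_ (norm_nonneg x)
  nlinarith [sq_nonneg ‖zp x‖]

theorem zp_le {d : ℕ} (x : V d) : ‖zp x‖ ≤ ‖x‖ := by
  have h1 := norm_sq_eq x
  refine le_of_sq_le_sq ?_ (norm_nonneg x)
  nlinarith [sq_nonneg (x 0), sq_nonneg (x 1)]

theorem nsq_nn {n m : ℕ} (L : E n →L[ℝ] E m) : 0 ≤ nsq L := by
  unfold nsq
  positivity

theorem Cen_mono {d m : ℕ} {G : V d → V d →L[ℝ] E m} {h R J J' mb y0 y1 : ℝ} {s0 s1 : E d}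
    (H : Cen G h R J mb y0 y1 s0 s1) (hJ : J ≤ J') : Cen G h R J' mb y0 y1 s0 s1 where
  w1 z₀ t h1 h2 h3 := (H.w1 z₀ t h1 h2 h3).trans hJ
  w2 z₀ t h1 h2 h3 := ⟨(H.w2 z₀ t h1 h2 h3).1.trans hJ, (H.w2 z₀ t h1 h2 h3).2.trans hJ⟩
  w3 z₀ t h1 h2 h3 a := (H.w3 z₀ t h1 h2 h3 a).trans hJ

/-- choice of the constants -/
theorem consts (A C3 M0 X Y κ : ℝ) (hA : 0 ≤ A) (hC : 0 ≤ C3) (hM : 0 ≤ M0) (hX : 0 < X)
    (hY : 0 < Y) (hκ : 0 < κ) : ∃ rc dd : ℝ, 0 < rc ∧ rc ≤ κ ∧ rc ≤ 1 / 64 ∧ 0 < dd ∧ dd ≤ κ ∧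
      A * (dd + C3 * dd ^ 2 / rc ^ 2 + rc * M0) ≤ X ∧ rc ^ 2 * M0 ≤ Y ∧
      C3 * dd ^ 2 / rc ^ 2 ≤ Y := by
  obtain ⟨Z, hZ⟩ : ∃ Z : ℝ, Z = min (X / (3 * (A + 1))) Y := ⟨_, rfl⟩
  have hZ0 : 0 < Z := by
    rw [hZ]
    exact lt_min (by positivity) hY
  have hZ1 : Z * (3 * (A + 1)) ≤ X := by
    have : Z ≤ X / (3 * (A + 1)) := by
      rw [hZ]
      exact min_le_left _ _
    rwa [le_div_iff₀ (by positivity)] at this
  have hZY : Z ≤ Y := by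
    rw [hZ]
    exact min_le_right _ _
  obtain ⟨rc, hrc⟩ : ∃ rc : ℝ, rc = min (min κ (1 / 64)) (Z / (M0 + 1)) := ⟨_, rfl⟩
  have hrc0 : 0 < rc := by
    rw [hrc]
    exact lt_min (lt_min hκ (by norm_num)) (by positivity)
  have hrc1 : rc ≤ κ := by
    rw [hrc]
    exact (min_le_left _ _).trans (min_le_left _ _)
  have hrc2 : rc ≤ 1 / 64 := by
    rw [hrc]
    exact (min_le_left _ _).trans (min_le_right _ _)
  have hrc3 : rc * M0 ≤ Z := by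
    have h1 : rc ≤ Z / (M0 + 1) := by
      rw [hrc]
      exact min_le_right _ _
    rw [le_div_iff₀ (by positivity)] at h1
    nlinarith
  obtain ⟨dd, hdd⟩ : ∃ dd : ℝ, dd = min (min κ Z) (min 1 (Z * rc ^ 2 / (C3 + 1))) := ⟨_, rfl⟩
  have hdd0 : 0 < dd := by
    rw [hdd]
    exact lt_min (lt_min hκ hZ0) (lt_min one_pos (by positivity))
  have hdd1 : dd ≤ κ := by
    rw [hdd]
    exact (min_le_left _ _).trans (min_le_left _ _)
  have hdd2 : dd ≤ Z := by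
    rw [hdd]
    exact (min_le_left _ _).trans (min_le_right _ _)
  have hdd3 : dd ≤ 1 := by
    rw [hdd]
    exact (min_le_right _ _).trans (min_le_left _ _)
  have hdd4 : dd * (C3 + 1) ≤ Z * rc ^ 2 := by
    have h1 : dd ≤ Z * rc ^ 2 / (C3 + 1) := by
      rw [hdd]
      exact (min_le_right _ _).trans (min_le_right _ _)
    rwa [le_div_iff₀ (by positivity)] at h1
  have hCd : C3 * dd ^ 2 / rc ^ 2 ≤ Z := by
    rw [div_le_iff₀ (by positivity)]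
    have h1 : dd ^ 2 ≤ dd := by nlinarith
    calc C3 * dd ^ 2 ≤ C3 * dd := mul_le_mul_of_nonneg_left h1 hC
      _ ≤ dd * (C3 + 1) := by nlinarith
      _ ≤ Z * rc ^ 2 := hdd4
  refine ⟨rc, dd, hrc0, hrc1, hrc2, hdd0, hdd1, ?_, ?_, hCd.trans hZY⟩
  · calc A * (dd + C3 * dd ^ 2 / rc ^ 2 + rc * M0) ≤ A * (Z + Z + Z) :=
          mul_le_mul_of_nonneg_left (by linarith) hA
      _ ≤ Z * (3 * (A + 1)) := by nlinarith
      _ ≤ X := hZ1
  · have h1 : rc ^ 2 * M0 ≤ rc * M0 := mul_le_mul_of_nonneg_right (by nlinarith) hM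
    linarith

/-- the second moment about the standard plane -/
theorem plane0 (hBTF : T_BTF) (hMUF : T_MUF) {d m : ℕ} {G : V d → V d →L[ℝ] E m} {Λ rc Y : ℝ}
    (hG : GD Λ G) (hrc : 0 < rc) (h1 : rc ^ 2 * (Λ * 2 ^ d) ≤ Y) (h2 : oc G rc (5 / 8) ≤ Y) :
    ∫⁻ x in ball (0 : V d) (5 / 8), ENNReal.ofReal
      (dl 0 (bv (0 : Fin (d + 2))) (bv (1 : Fin (d + 2))) x) ∂(mu G) ≤ ENNReal.ofReal (Y + Y) := by
  obtain ⟨-, -, hB3, -, -⟩ := hBTF d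
  obtain ⟨hM1, -, -, hM4, -, -⟩ := hMUF d m G hG.memG
  obtain ⟨S, hS⟩ : ∃ S : Set (V d), S = {x | rc ≤ rho x} := ⟨_, rfl⟩
  have hSm : MeasurableSet S := by
    rw [hS]
    exact (isClosed_le continuous_const rho_cont).measurableSet
  have hbS : ball (0 : V d) (5 / 8) ∩ S = {x : V d | x ∈ ball (0 : V d) (5 / 8) ∧ rc ≤ rho x} := by
    rw [hS]
    rfl
  have hsub : ball (0 : V d) (5 / 8) ⊆ ball (0 : V d) 2 := ball_subset_ball (by norm_num)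
  have h3 : ∫⁻ x in ball (0 : V d) (5 / 8), ENNReal.ofReal
      (dl 0 (bv (0 : Fin (d + 2))) (bv (1 : Fin (d + 2))) x) ∂(mu G) ≤
      ∫⁻ x in ball (0 : V d) (5 / 8), (ENNReal.ofReal (rc ^ 2) + S.indicator 1 x) ∂(mu G) := by
    refine setLIntegral_mono' measurableSet_ball fun x hx => ?_
    rw [hB3 x]
    by_cases hxS : rc ≤ rho x
    · have h4 : S.indicator (1 : V d → ℝ≥0∞) x = 1 := by
        rw [Set.indicator_of_mem (by rw [hS]; exact hxS)]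
        rfl
      rw [h4]
      have h5 : rho x ≤ 1 := by
        have h6 : ‖x‖ < 5 / 8 := by simpa using hx
        linarith [rho_le x]
      have h6 : rho x ^ 2 ≤ 1 := by nlinarith [rho_nonneg x]
      calc ENNReal.ofReal (rho x ^ 2) ≤ ENNReal.ofReal 1 := ENNReal.ofReal_le_ofReal h6
        _ = 1 := ENNReal.ofReal_one
        _ ≤ ENNReal.ofReal (rc ^ 2) + 1 := le_add_self
    · push Not at hxS
      refine le_trans (ENNReal.ofReal_le_ofReal ?_) le_self_add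
      nlinarith [rho_nonneg x]
  refine h3.trans ?_
  rw [lintegral_add_left measurable_const, setLIntegral_const, lintegral_indicator_one hSm,
    Measure.restrict_apply hSm, Set.inter_comm S]
  have hY0 : 0 ≤ Y := by
    refine le_trans ?_ h2
    exact integral_nonneg fun x => nsq_nn _
  have hfin : ∀ T : Set (V d), (mu G) T ≠ ⊤ := fun T =>
    ne_top_of_le_ne_top hM1 (measure_mono (subset_univ T))
  rw [ENNReal.ofReal_add hY0 hY0]
  refine add_le_add ?_ ?_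
  · calc ENNReal.ofReal (rc ^ 2) * (mu G) (ball (0 : V d) (5 / 8))
        ≤ ENNReal.ofReal (rc ^ 2) * (mu G) (ball (0 : V d) 2) := by
          gcongr
      _ = ENNReal.ofReal (rc ^ 2) * ENNReal.ofReal ((mu G).real (ball (0 : V d) 2)) := by
          rw [ofReal_measureReal (hfin _)]
      _ ≤ ENNReal.ofReal (rc ^ 2) * ENNReal.ofReal (Λ * 2 ^ d) := by
          have := hG.den 0 2 two_pos Subset.rfl
          gcongr
      _ = ENNReal.ofReal (rc ^ 2 * (Λ * 2 ^ d)) := (ENNReal.ofReal_mul (by positivity)).symm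
      _ ≤ ENNReal.ofReal Y := ENNReal.ofReal_le_ofReal h1
  · rw [← ofReal_measureReal (hfin _)]
    refine ENNReal.ofReal_le_ofReal ?_
    rw [(hM4 _ (measurableSet_ball.inter hSm) (inter_subset_left.trans hsub)).2, hbS]
    exact h2

/-- a nearly optimal plane -/
theorem near_opt {d : ℕ} (f : V d → V d → V d → ℝ≥0∞) (a0 n1 n2 : V d) (h0 : ON n1 n2) (s w : ℝ)
    (hs : f a0 n1 n2 ≤ ENNReal.ofReal s) (hw : 0 < w) : ∃ a ν₁ ν₂ : V d, ON ν₁ ν₂ ∧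
      f a ν₁ ν₂ ≤ ENNReal.ofReal s + ENNReal.ofReal w ∧
      ∀ a' μ₁ μ₂ : V d, ON μ₁ μ₂ → f a ν₁ ν₂ ≤ f a' μ₁ μ₂ + ENNReal.ofReal w := by
  obtain ⟨Q, hQ⟩ : ∃ Q : ℝ≥0∞, Q = ⨅ (a : V d) (ν₁ : V d) (ν₂ : V d) (_ : ON ν₁ ν₂), f a ν₁ ν₂ :=
    ⟨_, rfl⟩
  have hQle : ∀ a' μ₁ μ₂ : V d, ON μ₁ μ₂ → Q ≤ f a' μ₁ μ₂ := by
    intro a' μ₁ μ₂ h
    rw [hQ]
    exact iInf_le_of_le a' (iInf_le_of_le μ₁ (iInf_le_of_le μ₂ (iInf_le_of_le h le_rfl)))
  have hQs : Q ≤ ENNReal.ofReal s := (hQle a0 n1 n2 h0).trans hs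
  have hlt : Q < Q + ENNReal.ofReal w := by
    refine ENNReal.lt_add_right (ne_top_of_le_ne_top ENNReal.ofReal_ne_top hQs) ?_
    exact (ENNReal.ofReal_pos.2 hw).ne'
  have hlt2 : (⨅ (a : V d) (ν₁ : V d) (ν₂ : V d) (_ : ON ν₁ ν₂), f a ν₁ ν₂) <
      Q + ENNReal.ofReal w := by
    rw [← hQ]
    exact hlt
  obtain ⟨a, ha⟩ := iInf_lt_iff.1 hlt2
  obtain ⟨ν₁, h1⟩ := iInf_lt_iff.1 ha
  obtain ⟨ν₂, h2⟩ := iInf_lt_iff.1 h1
  obtain ⟨hon, h3⟩ := iInf_lt_iff.1 h2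
  exact ⟨a, ν₁, ν₂, hon, h3.le.trans (add_le_add hQs le_rfl), fun a' μ₁ μ₂ h =>
    h3.le.trans (add_le_add (hQle a' μ₁ μ₂ h) le_rfl)⟩

theorem pf_FRA (hNCK : T_NCK) (hCE0 : T_CE0) (hMLB : T_MLB) (hNRM : T_NRM) (hOCN : T_OCN)
    (hBTF : T_BTF) (hMUF : T_MUF) : T_FRA := by
  intro d m L Λ ε e₀ κ hd hL hΛ hε he₀ hκ
  obtain ⟨c1, hc1, hmlb⟩ := hMLB d
  obtain ⟨q1, hq1, hnrm⟩ := hNRM d (c1 * e₀) κ (by positivity) hκ
  obtain ⟨C2, hC2, hce0⟩ := hCE0 d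
  obtain ⟨C3, hC3, hocn⟩ := hOCN d
  have h64 : (0 : ℝ) < e₀ * (1 / 64) ^ d / 4 := by positivity
  obtain ⟨rc, dd, hrc0, hrcκ, hrc64, hdd0, hddκ, hJ, hrM, hCd⟩ := consts
    (C2 / (1 / 64) ^ (d + 3)) C3 (Λ * 2 ^ d) (min q1 (c1 * e₀))
    (min (e₀ * (1 / 64) ^ d / 4) (min q1 κ / 4)) κ (by positivity) hC3 (by positivity)
    (lt_min hq1 (by positivity)) (lt_min h64 (by have := lt_min hq1 hκ; positivity)) hκ
  obtain ⟨τ₀, om, hτ₀, hom, hnck⟩ := hNCK d m L Λ ε dd rc hL hΛ hε hdd0 hrc0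
  obtain ⟨K, hK⟩ := exists_pow_lt_of_lt_one hτ₀ (by norm_num : (1 / 2 : ℝ) < 1)
  refine ⟨K, om, hom, fun U u G hSM x₀ hFr => ?_⟩
  obtain ⟨hn1, hn2⟩ := hnck U u G hSM ((1 / 2) ^ K) e₀ x₀ (by positivity) hK.le hFr
  have hmem := hSM.gd.memG
  have hsub : ball (0 : V d) (5 / 8) ⊆ ball (0 : V d) 2 := ball_subset_ball (by norm_num)
  obtain ⟨hM1, -, -, hM4, -, -⟩ := hMUF d m G hmem
  have hen : ∀ x, 0 ≤ en u x := fun x => nsq_nn _
  have hoc : oc G rc (5 / 8) ≤ C3 * dd ^ 2 / rc ^ 2 := by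
    refine (hocn m L Λ ε U u G hSM rc dd (5 / 8) hrc0 (by norm_num) fun x hx hxr => ?_).1
    obtain ⟨h1, h2⟩ := hn1 x hx hxr
    refine ⟨h1, ?_⟩
    calc rho x ^ 2 * en u x = (rho x * Real.sqrt (en u x)) ^ 2 := by
          rw [mul_pow, Real.sq_sqrt (hen x)]
      _ ≤ dd ^ 2 := pow_le_pow_left₀ (mul_nonneg (rho_nonneg x) (Real.sqrt_nonneg _)) h2 2
  have hoch : oc G (1 / 64) (5 / 8) ≤ oc G rc (5 / 8) := by
    unfold oc
    refine setIntegral_mono_set ?_ ?_ ?_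
    · have h1 : {x : V d | x ∈ ball (0 : V d) (5 / 8) ∧ rc ≤ rho x} =
          ball (0 : V d) (5 / 8) ∩ {x | rc ≤ rho x} := rfl
      rw [h1]
      exact (hM4 _ (measurableSet_ball.inter (isClosed_le continuous_const
        rho_cont).measurableSet) (inter_subset_left.trans hsub)).1
    · exact Eventually.of_forall fun x => nsq_nn _
    · exact LE.le.eventuallyLE fun x hx => ⟨hx.1, hrc64.trans hx.2⟩
  have hM0 : (mu G).real (ball 0 2) ≤ Λ * 2 ^ d := hSM.gd.den 0 2 two_pos Subset.rfl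
  have hCen := hce0 m G hmem hSM.gd.stat (1 / 64) rc hrc0 hrc64 (by norm_num)
  have hJle : C2 / (1 / 64) ^ (d + 3) * ((∫ x in ball (0 : V d) (5 / 8), nzs (G x)) +
      oc G rc (5 / 8) + rc * (mu G).real (ball 0 2)) ≤ min q1 (c1 * e₀) := by
    refine le_trans (mul_le_mul_of_nonneg_left ?_ (by positivity)) hJ
    have h1 : rc * (mu G).real (ball 0 2) ≤ rc * (Λ * 2 ^ d) :=
      mul_le_mul_of_nonneg_left hM0 hrc0.le
    linarith only [h1, hn2, hoc]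
  have hx0 : ‖x₀‖ < 1 / 64 := hFr.x0
  have hmb : c1 * e₀ ≤ ms G (1 / 64) 0 (1 / 16) := by
    refine hmlb m G hmem x₀ (1 / 64) e₀ (1 / 64) (by norm_num) le_rfl he₀.le (Or.inl rfl)
      ((zp_le x₀).trans_lt hx0) ((rho_le x₀).trans (by linarith)) hFr.ch ?_
      (Cen_mono hCen (hJle.trans (min_le_right _ _)))
    exact (hoch.trans hoc).trans (hCd.trans (min_le_left _ _))
  have hCen1 := Cen_mono hCen (hJle.trans (min_le_left _ _))
  refine ⟨fun x hx hxr => ?_, fun η hη => ?_⟩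
  · obtain ⟨h1, h2⟩ := hn1 x hx (hrcκ.trans hxr)
    exact ⟨h1, h2.trans hddκ⟩
  obtain ⟨hB1, hB2, hB3, -, -⟩ := hBTF d
  have hmq : 0 < min q1 κ := lt_min hq1 hκ
  have hpl := plane0 (Y := min q1 κ / 4) hBTF hMUF hSM.gd hrc0 (hrM.trans (min_le_right _ _))
    (hoc.trans (hCd.trans (min_le_right _ _)))
  obtain ⟨w, hw⟩ : ∃ w : ℝ, w = min (η / 2 ^ (d + 2)) (min q1 κ / 2) := ⟨_, rfl⟩
  have hw0 : 0 < w := by
    rw [hw]
    exact lt_min (by positivity) (by positivity)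
  have hw1 : w * 2 ^ (d + 2) ≤ η := by
    have : w ≤ η / 2 ^ (d + 2) := by
      rw [hw]
      exact min_le_left _ _
    rwa [le_div_iff₀ (by positivity)] at this
  have hw2 : w ≤ min q1 κ / 2 := by
    rw [hw]
    exact min_le_right _ _
  obtain ⟨a, ν₁, ν₂, hon, hv1, hv2⟩ := near_opt (fun a ν₁ ν₂ =>
    ∫⁻ x in ball (0 : V d) (5 / 8), ENNReal.ofReal (dl a ν₁ ν₂ x) ∂(mu G)) 0 _ _ hB2
    (min q1 κ / 4 + min q1 κ / 4) w hpl hw0
  have hv3 : ∫⁻ x in ball (0 : V d) (5 / 8), ENNReal.ofReal (dl a ν₁ ν₂ x) ∂(mu G) ≤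
      ENNReal.ofReal (min q1 κ) := by
    refine hv1.trans ?_
    rw [← ENNReal.ofReal_add (by positivity) hw0.le]
    exact ENNReal.ofReal_le_ofReal (by linarith only [hw2])
  obtain ⟨g1, g2, g3, g4⟩ := hnrm m G hmem (1 / 64) (ms G (1 / 64) 0 (1 / 16)) (by norm_num)
    le_rfl hmb hCen1 a ν₁ ν₂ hon (hv3.trans (ENNReal.ofReal_le_ofReal (min_le_left _ _)))
  refine ⟨a, ν₁, ν₂, hon, g1, g2, g3, g4,
    hv3.trans (ENNReal.ofReal_le_ofReal (min_le_right _ _)), fun x hx => ?_⟩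
  have hbsub : ball (0 : V d) (5 / 8) ⊆ ball x (8 * (1 / 8)) := by
    intro y hy
    rw [mem_ball] at hy hx ⊢
    rw [dist_zero_right] at hy
    have h1 : dist y x ≤ dist y 0 + dist 0 x₀ + dist x₀ x := dist_triangle4 _ _ _ _
    rw [dist_zero_right, dist_zero_left, dist_comm x₀ x] at h1
    linarith
  have hkey : ∀ a' μ₁ μ₂ : V d, ON μ₁ μ₂ → ENNReal.ofReal (2 ^ (d + 2)) *
      (∫⁻ y in ball (0 : V d) (5 / 8), ENNReal.ofReal (dl a ν₁ ν₂ y) ∂(mu G)) ≤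
      ENNReal.ofReal (((1 / 8 : ℝ) ^ (d + 2))⁻¹) *
        (∫⁻ y in ball x (8 * (1 / 8)), ENNReal.ofReal (dl a' μ₁ μ₂ y) ∂(mu G)) +
      ENNReal.ofReal η := by
    intro a' μ₁ μ₂ hon'
    calc ENNReal.ofReal (2 ^ (d + 2)) *
        (∫⁻ y in ball (0 : V d) (5 / 8), ENNReal.ofReal (dl a ν₁ ν₂ y) ∂(mu G))
        ≤ ENNReal.ofReal (2 ^ (d + 2)) *
          ((∫⁻ y in ball (0 : V d) (5 / 8), ENNReal.ofReal (dl a' μ₁ μ₂ y) ∂(mu G)) +
            ENNReal.ofReal w) := mul_le_mul_right (hv2 a' μ₁ μ₂ hon') _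
      _ = ENNReal.ofReal (2 ^ (d + 2)) *
          (∫⁻ y in ball (0 : V d) (5 / 8), ENNReal.ofReal (dl a' μ₁ μ₂ y) ∂(mu G)) +
            ENNReal.ofReal (w * 2 ^ (d + 2)) := by
          rw [mul_add, ← ENNReal.ofReal_mul (by positivity), mul_comm (2 ^ (d + 2)) w]
      _ ≤ _ := by
          refine add_le_add (mul_le_mul' ?_ (lintegral_mono_set hbsub))
            (ENNReal.ofReal_le_ofReal hw1)
          refine ENNReal.ofReal_le_ofReal ?_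
          rw [← inv_pow]
          exact pow_le_pow_left₀ (by norm_num) (by norm_num) _
  unfold bt
  simp only [ENNReal.iInf_add]
  refine le_iInf fun a' => le_iInf fun μ₁ => le_iInf fun μ₂ => le_iInf fun hon' => ?_
  exact hkey a' μ₁ μ₂ hon'

end Pool.Agent.H16.AN
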